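import Pool.Agent.H986R3.SOAFinal

set_option autoImplicit false

/-!
There is a `Pi^1_1`-sound, `Pi^1_1`-definable extension of `Sigma^1_1-AC_0` that proves its own
`Pi^1_1`-soundness.

The language, structures, provability, `ACA_0`, the Goedel numbering, arithmetizations and the
reflection sentence are in `Pool/Agent/H986R3/SOADefs.lean` (the Goedel numbering is injective by
`Fm.code_inj` in `Pool/Agent/H986R3/SOAFinal.lean`).

Idea of the proof. Let `T` be a set of true sentences with an arithmetical definition `ax(a)`. Let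
`τ(a)` say that `ax(a)` holds and that the theory defined by `ax` is `Pi^1_1`-sound; the latter is a
`Pi^1_1` statement, and it is true, so `τ` is (up to prenex operations) a `Pi^1_1` formula that
defines `T`. In a model of `T` let `p` be a proof of `x` all of whose axioms satisfy `τ`. If `p`
uses some axiom, then the theory defined by `ax` is `Pi^1_1`-sound, so `tr(x)`. If `p` uses no
axiom, then `tr(x)` holds if the model satisfies the `Pi^1_1`-soundness of pure logic, which we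
take as an axiom of `T`.
-/

namespace Pool.Agent.Results.MP_51f008_lc.PiSelfSoundness

open Pool.Agent.H986R3.SOA Function

/-- The axioms of `Sigma^1_1-AC_0`, free variables being universally quantified: the axioms of
`ACA_0` and, for each `Sigma^1_1` formula `η(i, Y_j)` in which the set variable `Z_k` is not free,
the axiom of choice
`∀ i ∃ Y_j η → ∃ Z_k ∀ i ∃ Y_j (∀ m (m ∈ Y_j ↔ (m, i) ∈ Z_k) ∧ η)`,
in which `(m, i)` is the value of the pairing term `prT`. -/
inductive SAC0 : Fm → Prop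
  | aca (φ : Fm) : ACA0 φ → SAC0 φ
  | choice (η : Fm) (i j k m : ℕ) : η.IsSigma11 → m ≠ i → j ≠ k → k ∉ η.fvS →
      SAC0 (.imp (.all i (.exS j η)) (.exS k (.all i (.exS j (.and
        (.all m (.iff (.mem (.var m) j) (.mem (prT (.var m) (.var i)) k))) η)))))

/-- The set `B` of sentences is an axiomatization of `Sigma^1_1-AC_0`, and the arithmetical formula
`ax(a)` defines (the set of Goedel numbers of the members of) `B` in the standard model. -/
structure Axiomatization (B : Set Fm) (ax : Fm) : Prop where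
  sentence : ∀ φ ∈ B, φ.IsSentence
  sound : ∀ φ ∈ B, Proves {ψ | SAC0 ψ} φ
  complete : ∀ φ, SAC0 φ → Proves B φ
  arith : ax.Arithmetical
  free : ax.FreeIn {0}
  defines : ∀ n : ℕ, SatN n 0 0 ax ↔ ∃ φ ∈ B, φ.code = n

/-- The `Pi^1_1` formula `τ(a)` defines (the set of Goedel numbers of the members of) `T` in the
standard model. -/
def Pi11Defines (τ : Fm) (T : Set Fm) : Prop :=
  τ.IsPi11 ∧ τ.FreeIn {0} ∧ ∀ n : ℕ, SatN n 0 0 τ ↔ ∃ φ ∈ T, φ.code = n

/-- `T` proves its own `Pi^1_1`-soundness, for some `Pi^1_1` definition `τ` of `T`. -/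
def ProvesOwnSoundnessPi (𝒜 : Arithmetization) (T : Set Fm) : Prop :=
  ∃ τ : Fm, Pi11Defines τ T ∧ Proves T (𝒜.reflection τ)

/-- The sentence that says that pure logic is `Pi^1_1`-sound: each `Pi^1_1` sentence that has a
proof in which no non-logical axiom is used is true. -/
def logicSound (𝒜 : Arithmetization) : Fm :=
  .all 2 (.all 1 (.imp (.and 𝒜.isPi (.and 𝒜.prf (.all 0 (.neg 𝒜.axIn)))) 𝒜.tr))

/-! ### Truth in the standard model -/

theorem std_aca0 (φ : Fm) (h : ACA0 φ) : std.Holds φ := by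
  intro v V _
  induction h with
  | succ_ne_zero => exact fun h => Nat.succ_ne_zero (v 0) h
  | succ_inj => rw [Sat_imp]; exact fun h => Nat.succ.inj h
  | add_zero => exact Nat.add_zero (v 0)
  | add_succ => exact (Nat.add_assoc (v 0) (v 1) 1).symm
  | mul_zero => exact Nat.mul_zero (v 0)
  | mul_succ => exact Nat.mul_succ (v 0) (v 1)
  | not_lt_zero => exact fun h => Nat.not_lt_zero (v 0) h
  | lt_succ =>
    rw [Sat_iff, Sat_or]
    exact Nat.lt_succ_iff_lt_or_eq
  | induction =>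
    rw [Sat_imp]
    rintro ⟨h0, h1⟩ a
    simp only [Sat, Tm.val, update_self, Sat_imp] at h0 h1 ⊢
    induction a with
    | zero => exact h0
    | succ n ih => exact h1 n ih
  | comprehension φ i j hφ hj =>
    rw [Sat_exS]
    refine ⟨{n : ℕ | Sat std (update v i n) V φ}, trivial, fun n => ?_⟩
    rw [Sat_iff]
    simp only [Sat, Tm.val, update_self]
    refine Iff.trans Iff.rfl (Sat_congr std φ _ _ _ _ (fun _ _ => rfl) (fun l hl => ?_))
    have hlj : l ≠ j := fun e => hj (e ▸ hl)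
    rw [update_of_ne hlj]

theorem std_sac0 (φ : Fm) (h : SAC0 φ) : std.Holds φ := by
  cases h with
  | aca φ h => exact std_aca0 φ h
  | choice η i j k m hη hmi hjk hk =>
    intro v V _
    rw [Sat_imp, Sat_exS]
    intro h
    have h1 : ∀ n : std.Num, ∃ Y : Set std.Num, Sat std (update v i n) (update V j Y) η := by
      intro n
      obtain ⟨Y, _, hY⟩ := (Sat_exS _ _ _ _ _).mp (h n)
      exact ⟨Y, hY⟩
    choose F hF using h1
    refine ⟨{c : std.Num | ∃ a n : std.Num, c = std.pr a n ∧ a ∈ F n}, trivial, fun n => ?_⟩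
    rw [Sat_exS]
    refine ⟨F n, trivial, fun a => ?_, ?_⟩
    · rw [Sat_iff]
      simp only [Sat, val_prT, Tm.val, update_self, update_of_ne hmi.symm, update_of_ne hjk.symm,
        Set.mem_ofPred_eq]
      constructor
      · intro ha
        exact ⟨a, n, rfl, ha⟩
      · rintro ⟨a', n', he, ha'⟩
        obtain ⟨e1, e2⟩ := pr_inj (a := a) (b := n) (c := a') (d := n') he
        rw [e1, e2]
        exact ha'
    · refine (Sat_congr std η _ _ _ _ (fun _ _ => rfl) (fun l hl => ?_)).mp (hF n)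
      have hlk : l ≠ k := fun e => hk (e ▸ hl)
      by_cases hlj : l = j
      · subst hlj; rw [update_self, update_self]
      · rw [update_of_ne hlj, update_of_ne hlj, update_of_ne hlk]

theorem std_of_proves {T : Set Fm} (hT : ∀ ψ ∈ T, std.Holds ψ) {φ : Fm} (h : Proves T φ) :
    std.Holds φ := h std hT

/-! ### Assignments -/

/-- Satisfaction of a formula whose free variables are among the number variables `0, 1, 2`
depends only on their values. -/
theorem sat_iff_asg (M : Model) {φ : Fm} (h : φ.FreeIn {0, 1, 2}) (v : ℕ → M.Num)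
    (V : ℕ → Set M.Num) :
    Sat M v V φ ↔ Sat M (asg (v 0) (v 1) (v 2)) (fun _ => ∅) φ := by
  refine Sat_congr M φ _ _ _ _ (fun i hi => ?_) (fun i hi => ?_)
  · have := h.1 hi
    simp only [Set.mem_insert_iff, Set.mem_singleton_iff] at this
    rcases this with rfl | rfl | rfl <;> rfl
  · rw [h.2] at hi
    exact hi.elim

theorem FreeIn.mono {φ : Fm} {s t : Set ℕ} (h : φ.FreeIn s) (hst : s ⊆ t) : φ.FreeIn t :=
  ⟨h.1.trans hst, h.2⟩

theorem sat_congr0 (M : Model) {φ : Fm} (h : φ.FreeIn {0}) (v v' : ℕ → M.Num)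
    (V V' : ℕ → Set M.Num) (h0 : v 0 = v' 0) : Sat M v V φ ↔ Sat M v' V' φ := by
  refine Sat_congr M φ _ _ _ _ (fun i hi => ?_) (fun i hi => ?_)
  · have := h.1 hi
    simp only [Set.mem_singleton_iff] at this
    rw [this]; exact h0
  · rw [h.2] at hi
    exact hi.elim

theorem sat_congr2 (M : Model) {φ : Fm} (h : φ.FreeIn {2}) (v v' : ℕ → M.Num)
    (V V' : ℕ → Set M.Num) (h0 : v 2 = v' 2) : Sat M v V φ ↔ Sat M v' V' φ := by
  refine Sat_congr M φ _ _ _ _ (fun i hi => ?_) (fun i hi => ?_)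
  · have := h.1 hi
    simp only [Set.mem_singleton_iff] at this
    rw [this]; exact h0
  · rw [h.2] at hi
    exact hi.elim

theorem sat_congr12 (M : Model) {φ : Fm} (h : φ.FreeIn {1, 2}) (v v' : ℕ → M.Num)
    (V V' : ℕ → Set M.Num) (h1 : v 1 = v' 1) (h2 : v 2 = v' 2) :
    Sat M v V φ ↔ Sat M v' V' φ := by
  refine Sat_congr M φ _ _ _ _ (fun i hi => ?_) (fun i hi => ?_)
  · have := h.1 hi
    simp only [Set.mem_insert_iff, Set.mem_singleton_iff] at this
    rcases this with rfl | rfl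
    · exact h1
    · exact h2
  · rw [h.2] at hi
    exact hi.elim

theorem sat_congr01 (M : Model) {φ : Fm} (h : φ.FreeIn {0, 1}) (v v' : ℕ → M.Num)
    (V V' : ℕ → Set M.Num) (h1 : v 0 = v' 0) (h2 : v 1 = v' 1) :
    Sat M v V φ ↔ Sat M v' V' φ := by
  refine Sat_congr M φ _ _ _ _ (fun i hi => ?_) (fun i hi => ?_)
  · have := h.1 hi
    simp only [Set.mem_insert_iff, Set.mem_singleton_iff] at this
    rcases this with rfl | rfl
    · exact h1
    · exact h2
  · rw [h.2] at hi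
    exact hi.elim

/-! ### The definition `τ` -/

/-- The matrix of `τ`. -/
def tauBody (𝒜 : Arithmetization) (ax θ : Fm) : Fm :=
  .and ax (.all 2 (.imp (.and 𝒜.isPi (𝒜.Pr ax)) θ))

theorem sat_tau (M : Model) (𝒜 : Arithmetization) {ax θ : Fm} {i : ℕ} (hax : ax.FreeIn {0})
    (v : ℕ → M.Num) (V : ℕ → Set M.Num) :
    Sat M v V (.allS i (tauBody 𝒜 ax θ)) ↔
      Sat M v V ax ∧ Sat M v V (.all 2 (.imp (.and 𝒜.isPi (𝒜.Pr ax)) (.allS i θ))) := by
  obtain ⟨A₀, hA₀⟩ := M.sets_nonempty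
  have hPr : ∀ (v : ℕ → M.Num) (V V' : ℕ → Set M.Num),
      Sat M v V (.and 𝒜.isPi (𝒜.Pr ax)) ↔ Sat M v V' (.and 𝒜.isPi (𝒜.Pr ax)) := by
    intro v V V'
    refine Sat_congr M _ _ _ _ _ (fun _ _ => rfl) (fun l hl => ?_)
    have : (Fm.and 𝒜.isPi (𝒜.Pr ax)).fvS = ∅ := by
      simp only [Arithmetization.Pr, Fm.ex, Fm.imp, Fm.fvS, 𝒜.isPi_free.2, 𝒜.prf_free.2,
        𝒜.axIn_free.2, hax.2, Set.union_empty]
    rw [this] at hl
    exact hl.elim
  have hA : ∀ (v : ℕ → M.Num) (V V' : ℕ → Set M.Num), Sat M v V ax ↔ Sat M v V' ax :=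
    fun v V V' => sat_congr0 M hax v v V V' rfl
  constructor
  · intro h
    refine ⟨(hA v _ _).mp (h A₀ hA₀).1, fun x => ?_⟩
    rw [Sat_imp]
    intro h1 A hA'
    have h2 := (h A hA').2 x
    rw [Sat_imp] at h2
    exact h2 ((hPr _ _ _).mp h1)
  · rintro ⟨h1, h2⟩ A hA'
    refine ⟨(hA v _ _).mp h1, fun x => ?_⟩
    rw [Sat_imp]
    intro h3
    have h4 := h2 x
    rw [Sat_imp] at h4
    exact h4 ((hPr _ _ _).mp h3) A hA'

theorem tauBody_arith (𝒜 : Arithmetization) {ax θ : Fm} (hax : ax.Arithmetical)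
    (hθ : θ.Arithmetical) : (tauBody 𝒜 ax θ).Arithmetical :=
  ⟨hax, ⟨𝒜.isPi_arith, 𝒜.prf_arith, 𝒜.axIn_arith, hax⟩, hθ⟩

theorem tau_free (𝒜 : Arithmetization) {ax θ : Fm} {i : ℕ} (hax : ax.FreeIn {0})
    (hθ : (Fm.allS i θ).FreeIn {2}) : (Fm.allS i (tauBody 𝒜 ax θ)).FreeIn {0} := by
  have h1 := hax.1
  have h2 := 𝒜.isPi_free.1
  have h3 := 𝒜.prf_free.1
  have h4 := 𝒜.axIn_free.1
  have h5 : θ.fvN ⊆ {2} := hθ.1
  constructor
  · intro x hx
    simp only [tauBody, Arithmetization.Pr, Fm.ex, Fm.imp, Fm.fvN, Set.mem_union, Set.mem_sdiff,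
      Set.mem_singleton_iff] at hx
    rcases hx with hx | ⟨(hx | ⟨hx | ⟨hx | hx, h0⟩, h1'⟩) | hx, h2'⟩
    · exact h1 hx
    · exact absurd (h2 hx) h2'
    · rcases h3 hx with h | h
      · exact absurd h h1'
      · exact absurd h h2'
    · rcases h4 hx with h | h
      · exact absurd h h0
      · exact absurd h h1'
    · exact absurd (h1 hx) h0
    · exact absurd (h5 hx) h2'
  · have h6 : θ.fvS \ {i} = ∅ := hθ.2
    simp only [tauBody, Arithmetization.Pr, Fm.ex, Fm.imp, Fm.fvS, 𝒜.isPi_free.2, 𝒜.prf_free.2,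
      𝒜.axIn_free.2, hax.2, Set.union_empty, Set.empty_union, h6]

/-! ### The main argument -/

/-- In every structure in which pure logic is `Pi^1_1`-sound, the reflection sentence for `τ`
holds. -/
theorem reflection_holds (M : Model) (𝒜 : Arithmetization) {ax θ : Fm} {i : ℕ}
    (hax : ax.FreeIn {0}) (htr : 𝒜.tr = .allS i θ) (hM : M.Holds (logicSound 𝒜)) :
    M.Holds (𝒜.reflection (.allS i (tauBody 𝒜 ax θ))) := by
  intro v V hV x
  rw [Sat_imp]
  rintro ⟨hpi, hpr⟩
  obtain ⟨p, hp, hall⟩ := (Sat_ex _ _ _ _ _).mp hpr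
  by_cases hex : ∃ a, Sat M (update (update (update v 2 x) 1 p) 0 a) V 𝒜.axIn
  · obtain ⟨a, ha⟩ := hex
    have h1 := hall a
    rw [Sat_imp, sat_tau M 𝒜 hax] at h1
    have h2 := (h1 ha).2 x
    rw [Sat_imp] at h2
    have h3 : Sat M (update (update (update (update v 2 x) 1 p) 0 a) 2 x) V 𝒜.tr := by
      rw [htr]
      refine h2 ⟨(sat_congr2 M 𝒜.isPi_free _ _ _ _ (by simp)).mp hpi, ?_⟩
      refine (Sat_ex _ _ _ _ _).mpr ⟨p, ?_, fun b => ?_⟩
      · exact (sat_congr12 M 𝒜.prf_free _ _ _ _ (by simp) (by simp)).mp hp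
      · rw [Sat_imp]
        intro hb
        have h4 := hall b
        rw [Sat_imp, sat_tau M 𝒜 hax] at h4
        have h5 := (h4 ((sat_congr01 M 𝒜.axIn_free _ _ _ _ (by simp) (by simp)).mp hb)).1
        exact (sat_congr0 M hax _ _ _ _ (by simp)).mp h5
    exact (sat_congr2 M 𝒜.tr_free _ _ _ _ (by simp)).mp h3
  · have h1 := hM v V hV x p
    rw [Sat_imp] at h1
    refine (sat_congr2 M 𝒜.tr_free _ _ _ _ (by simp)).mp (h1 ⟨?_, ?_, fun a ha => hex ⟨a, ha⟩⟩)
    · exact (sat_congr2 M 𝒜.isPi_free _ _ _ _ (by simp)).mp hpi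
    · exact hp

theorem upd2 {A : Type} (v : ℕ → A) (x : A) : update v 2 x 2 = x := by simp

theorem upd21 {A : Type} (v : ℕ → A) (x p : A) : update (update v 2 x) 1 p 2 = x := by simp

theorem upd1 {A : Type} (v : ℕ → A) (p : A) : update v 1 p 1 = p := by simp

theorem upd0 {A : Type} (v : ℕ → A) (p : A) : update v 0 p 0 = p := by simp

theorem upd10 {A : Type} (v : ℕ → A) (p a : A) : update (update v 1 p) 0 a 1 = p := by simp

/-- In the standard model, `tr` holds of the Goedel number of each true `Pi^1_1` sentence. -/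
theorem std_tr (𝒜 : Arithmetization) {φ : Fm} (hφ : φ.IsPi11Sentence) (h : std.Holds φ)
    (v : ℕ → std.Num) (V : ℕ → Set std.Num) (hv : v 2 = φ.code) : Sat std v V 𝒜.tr := by
  have h1 := std_of_proves (fun ψ hψ => std_aca0 ψ hψ) (𝒜.tr_proves φ hφ)
  have h2 := (Sat_iff std v V _ _).mp (h1 v V (fun _ => trivial))
  have h3 := (Sat_imp std (update v 2 (std.num φ.code)) V _ _).mp
    (h2.mpr (h v V (fun _ => trivial)) (std.num φ.code))
  have h4 : std.num φ.code = v 2 := (std_num _).trans hv.symm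
  refine (sat_congr2 std 𝒜.tr_free _ _ _ _ ?_).mp (h3 ?_)
  · exact (upd2 v _).trans h4
  · show (Tm.var 2).val std _ = (numeral φ.code).val std _
    rw [val_numeral]
    exact upd2 v _

/-- In the standard model, the theory defined by an arithmetical definition `ax` of a set `T` of
true sentences is `Pi^1_1`-sound. -/
theorem std_reflection (𝒜 : Arithmetization) {T : Set Fm} {ax : Fm}
    (hTs : ∀ ψ ∈ T, ψ.IsSentence) (htrue : ∀ ψ ∈ T, std.Holds ψ) (hax : ax.FreeIn {0})
    (hdef : ∀ n : ℕ, SatN n 0 0 ax ↔ ∃ φ ∈ T, φ.code = n)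
    (v : ℕ → std.Num) (V : ℕ → Set std.Num) :
    Sat std v V (𝒜.reflection ax) := by
  intro x
  rw [Sat_imp]
  rintro ⟨hpi, hpr⟩
  obtain ⟨p, hp, hall⟩ := (Sat_ex _ _ _ _ _).mp hpr
  obtain ⟨φ, hφ, hφx⟩ := (𝒜.isPi_std x).mp
    ((sat_congr2 std 𝒜.isPi_free _ _ _ _ (upd2 v x)).mp hpi)
  have hprov : Proves T φ := by
    refine (𝒜.prf_correct T hTs φ hφ.2).mpr ⟨p, ?_, fun a ha => ?_⟩
    · exact (sat_congr12 std 𝒜.prf_free _ _ _ _ (upd1 _ p) ((upd21 v x p).trans hφx.symm)).mp hp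
    · have h1 := (Sat_imp _ _ _ _ _).mp (hall a)
      refine (hdef a).mp ((sat_congr0 std hax _ _ _ _ (upd0 _ a)).mp (h1 ?_))
      exact (sat_congr01 std 𝒜.axIn_free _ _ _ _ (upd0 _ a) (upd10 _ p a)).mpr ha
  exact std_tr 𝒜 hφ (std_of_proves htrue hprov) _ _ ((upd2 v x).trans hφx.symm)

theorem std_logicSound (𝒜 : Arithmetization) : std.Holds (logicSound 𝒜) := by
  intro v V _ x p
  rw [Sat_imp]
  rintro ⟨hpi, hp, hno⟩
  obtain ⟨φ, hφ, hφx⟩ := (𝒜.isPi_std x).mp
    ((sat_congr2 std 𝒜.isPi_free _ _ _ _ (upd21 v x p)).mp hpi)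
  have hprov : Proves ∅ φ := by
    refine (𝒜.prf_correct ∅ (fun _ h => h.elim) φ hφ.2).mpr ⟨p, ?_, fun a ha => ?_⟩
    · exact (sat_congr12 std 𝒜.prf_free _ _ _ _ (upd1 _ p) ((upd21 v x p).trans hφx.symm)).mp hp
    · exact (hno a ((sat_congr01 std 𝒜.axIn_free _ _ _ _ (upd0 _ a) (upd10 _ p a)).mpr ha)).elim
  exact std_tr 𝒜 hφ (std_of_proves (fun _ h => h.elim) hprov) _ _
    ((upd21 v x p).trans hφx.symm)

/-- A set of true sentences with an arithmetical definition that proves the `Pi^1_1`-soundness of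
pure logic proves its own `Pi^1_1`-soundness for some `Pi^1_1` definition of it. -/
theorem core (𝒜 : Arithmetization) (T : Set Fm) (ax : Fm)
    (hTs : ∀ ψ ∈ T, ψ.IsSentence) (htrue : ∀ ψ ∈ T, std.Holds ψ)
    (ha : ax.Arithmetical) (hax : ax.FreeIn {0})
    (hdef : ∀ n : ℕ, SatN n 0 0 ax ↔ ∃ φ ∈ T, φ.code = n)
    (hl : Proves T (logicSound 𝒜)) : ProvesOwnSoundnessPi 𝒜 T := by
  obtain ⟨i, θ, htr, hθ⟩ := 𝒜.tr_pi
  refine ⟨.allS i (tauBody 𝒜 ax θ), ⟨⟨i, _, rfl, tauBody_arith 𝒜 ha hθ⟩, ?_, fun n => ?_⟩,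
    fun M hM => reflection_holds M 𝒜 hax htr (hl M hM)⟩
  · exact tau_free 𝒜 hax (htr ▸ 𝒜.tr_free)
  · rw [← hdef n]
    have h0 := sat_tau std 𝒜 (θ := θ) (i := i) hax (asg (A := ℕ) n 0 0) (fun _ => (∅ : Set ℕ))
    have h1 := std_reflection 𝒜 hTs htrue hax hdef (asg (A := ℕ) n 0 0) (fun _ => (∅ : Set ℕ))
    rw [Arithmetization.reflection, htr] at h1
    exact ⟨fun h => (h0.mp h).1, fun h => h0.mpr ⟨h, h1⟩⟩

/-- The sentence `logicSound`. -/
theorem logicSound_sentence (𝒜 : Arithmetization) : (logicSound 𝒜).IsSentence := by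
  have h2 := 𝒜.isPi_free.1
  have h3 := 𝒜.prf_free.1
  have h4 := 𝒜.axIn_free.1
  have h5 := 𝒜.tr_free.1
  constructor
  · ext x
    simp only [logicSound, Fm.imp, Fm.fvN, Set.mem_union, Set.mem_sdiff,
      Set.mem_singleton_iff, Set.mem_empty_iff_false, iff_false]
    rintro ⟨⟨(hx | hx | ⟨hx, h0⟩) | hx, h1'⟩, h2'⟩
    · exact h2' (h2 hx)
    · rcases h3 hx with h | h
      · exact h1' h
      · exact h2' h
    · rcases h4 hx with h | h
      · exact h0 h
      · exact h1' h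
    · exact h2' (h5 hx)
  · simp only [logicSound, Fm.imp, Fm.fvS, 𝒜.isPi_free.2, 𝒜.prf_free.2,
      𝒜.axIn_free.2, 𝒜.tr_free.2, Set.union_empty]

/-- For every arithmetization of the metamathematics of `L_2` (in particular, for every correct
proof predicate and every `Pi^1_1` partial truth predicate that `ACA_0` verifies), for every
axiomatization `B` of `Sigma^1_1-AC_0` with an arithmetical definition `ax`:

1. the theory `T = B ∪ {logicSound}` is a set of sentences that are true in the standard model, it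
   proves all axioms of `Sigma^1_1-AC_0`, it is `Pi^1_1`-sound, and there is a `Pi^1_1` formula `τ`
   that defines `T` and for which `T` proves `∀ φ ∈ Pi^1_1 (Pr_τ(φ) → tr(φ))`;
2. more generally, this holds for every set `T` of true sentences that has an arithmetical
   definition and proves `logicSound`. -/
theorem result (𝒜 : Arithmetization) :
    (∀ (B : Set Fm) (ax : Fm), Axiomatization B ax →
      (∀ φ ∈ B ∪ {logicSound 𝒜}, φ.IsSentence) ∧
      (∀ φ ∈ B ∪ {logicSound 𝒜}, std.Holds φ) ∧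
      (∀ φ, SAC0 φ → Proves (B ∪ {logicSound 𝒜}) φ) ∧
      Pi11Sound (B ∪ {logicSound 𝒜}) ∧
      ProvesOwnSoundnessPi 𝒜 (B ∪ {logicSound 𝒜})) ∧
    (∀ (T : Set Fm) (ax : Fm), (∀ ψ ∈ T, ψ.IsSentence) → (∀ ψ ∈ T, std.Holds ψ) →
      ax.Arithmetical → ax.FreeIn {0} → (∀ n : ℕ, SatN n 0 0 ax ↔ ∃ φ ∈ T, φ.code = n) →
      Proves T (logicSound 𝒜) → Pi11Sound T ∧ ProvesOwnSoundnessPi 𝒜 T) := by
  have hsound : ∀ T : Set Fm, (∀ ψ ∈ T, std.Holds ψ) → Pi11Sound T :=
    fun T hT φ _ h => std_of_proves hT h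
  refine ⟨fun B ax hB => ?_, fun T ax h1 h2 h3 h4 h5 h6 =>
    ⟨hsound T h2, core 𝒜 T ax h1 h2 h3 h4 h5 h6⟩⟩
  have hs : ∀ φ ∈ B ∪ {logicSound 𝒜}, φ.IsSentence := by
    rintro φ (h | h)
    · exact hB.sentence φ h
    · rw [Set.mem_singleton_iff.mp h]; exact logicSound_sentence 𝒜
  have ht : ∀ φ ∈ B ∪ {logicSound 𝒜}, std.Holds φ := by
    rintro φ (h | h)
    · exact std_of_proves (fun ψ hψ => std_sac0 ψ hψ) (hB.sound φ h)
    · rw [Set.mem_singleton_iff.mp h]; exact std_logicSound 𝒜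
  refine ⟨hs, ht, fun φ hφ M hM => hB.complete φ hφ M (fun ψ hψ => hM ψ (Or.inl hψ)),
    hsound _ ht, ?_⟩
  refine core 𝒜 _ (.or ax (.eq (.var 0) (numeral (logicSound 𝒜).code))) hs ht
    ⟨hB.arith, trivial⟩ ?_ ?_ (fun M hM => hM _ (Or.inr rfl))
  · have hnum : ∀ n : ℕ, (numeral n).fv = ∅ := by
      intro n
      induction n with
      | zero => rfl
      | succ n ih => simp only [numeral, Tm.fv, ih, Set.union_empty]
    constructor
    · intro x hx
      simp only [Fm.or, Fm.fvN, Tm.fv, hnum, Set.union_empty, Set.mem_union] at hx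
      rcases hx with hx | hx
      · exact hB.free.1 hx
      · exact hx
    · simp only [Fm.or, Fm.fvS, hB.free.2, Set.union_empty]
  · intro n
    have h1 := Sat_or std (asg (A := ℕ) n 0 0) (fun _ => (∅ : Set ℕ)) ax
      (.eq (.var 0) (numeral (logicSound 𝒜).code))
    have h2 : Sat std (asg (A := ℕ) n 0 0) (fun _ => (∅ : Set ℕ))
        (.eq (.var 0) (numeral (logicSound 𝒜).code)) ↔ n = (logicSound 𝒜).code := by
      have h3 := val_numeral std (asg (A := ℕ) n 0 0) (logicSound 𝒜).code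
      constructor
      · intro h; exact (Eq.trans h h3).trans (std_num _)
      · intro h; exact Eq.trans (h.trans (std_num _).symm) h3.symm
    refine h1.trans ?_
    rw [h2]
    constructor
    · rintro (h | h)
      · obtain ⟨φ, hφ, e⟩ := (hB.defines n).mp h
        exact ⟨φ, Or.inl hφ, e⟩
      · exact ⟨logicSound 𝒜, Or.inr rfl, h.symm⟩
    · rintro ⟨φ, hφ | hφ, e⟩
      · exact Or.inl ((hB.defines n).mpr ⟨φ, hφ, e⟩)
      · rw [Set.mem_singleton_iff.mp hφ] at e
        exact Or.inr e.symm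

end Pool.Agent.Results.MP_51f008_lc.PiSelfSoundness
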